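import Mathlib
import Pool.Agent.N852.MM.Stm

/-!
The bad families: linear algebra and compactness.
-/

set_option autoImplicit false
set_option linter.unusedSectionVars false

namespace Pool.Agent.N478.MM.Deg

open Matrix Module Filter Topology Function
open Pool.Agent.N852 (ic ic_add ic_sub ic_neg)
open Pool.Agent.N852.DD (Bl mem_Bl card_Bl norm_ic_ge)
open Pool.Agent.N852.MM
open Pool.Agent.H548.BL (lat orth mem_lat mem_orth rc)

variable {V : Type} [Fintype V] [DecidableEq V] {n : V → ℕ} {k : ℕ}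

/-- the forms which depend on both vectors -/
abbrev II (F : Sys n k) (u v : V) : Type := {i : Fin k // u ∈ F.e i ∧ v ∈ F.e i}

/-- the forms which depend on the first vector but not on the second one -/
abbrev JJ (F : Sys n k) (u v : V) : Type := {i : Fin k // u ∈ F.e i ∧ v ∉ F.e i}

theorem card_IJ (F : Sys n k) (u v : V) :
    Fintype.card (II F u v) + Fintype.card (JJ F u v) = dg F u := by
  unfold dg
  rw [Fintype.card_subtype, Fintype.card_subtype, Fintype.card_subtype,
    ← Finset.card_union_of_disjoint]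
  · congr 1
    ext i
    simp only [Finset.mem_union, Finset.mem_filter, Finset.mem_univ, true_and]
    tauto
  · rw [Finset.disjoint_left]
    intro i hi hi'
    simp only [Finset.mem_filter, Finset.mem_univ, true_and] at hi hi'
    exact hi'.2 hi.2

/-- the relations -/
noncomputable def Rl {ι : Type} [Fintype ι] {N : ℕ} (w : ι → Fin N → ℝ) : Submodule ℝ (ι → ℝ) :=
  LinearMap.ker (Fintype.linearCombination ℝ w)

theorem mem_Rl {ι : Type} [Fintype ι] {N : ℕ} {w : ι → Fin N → ℝ} {s : ι → ℝ} :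
    s ∈ Rl w ↔ ∑ i, s i • w i = 0 := by
  unfold Rl
  rw [LinearMap.mem_ker, Fintype.linearCombination_apply]

theorem Rl_pos {ι : Type} [Fintype ι] {N : ℕ} {w : ι → Fin N → ℝ} :
    1 ≤ finrank ℝ (Rl w) ↔ ¬ LinearIndependent ℝ w := by
  rw [Fintype.linearIndependent_iff]
  constructor
  · intro h hc
    have h1 : Rl w = ⊥ := by
      rw [Submodule.eq_bot_iff]
      intro s hs
      rw [mem_Rl] at hs
      exact funext (hc s hs)
    rw [h1, finrank_bot] at h
    omega
  · intro h
    push Not at h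
    obtain ⟨s, hs, i, hi⟩ := h
    rw [Nat.one_le_iff_ne_zero, Ne, Submodule.finrank_eq_zero]
    intro hc
    have h1 : s ∈ Rl w := mem_Rl.2 hs
    rw [hc, Submodule.mem_bot] at h1
    exact hi (by rw [h1]; rfl)

theorem finrank_Rl_le {ι : Type} [Fintype ι] {N : ℕ} (w : ι → Fin N → ℝ) :
    finrank ℝ (Rl w) ≤ Fintype.card ι := by
  have := Submodule.finrank_le (Rl w)
  rwa [finrank_fintype_fun_eq_card] at this

variable {F : Sys n k}

/-- the dimension of the real fibre -/
theorem finrank_orth (u : V) (x : Tup n ℤ) :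
    finrank ℝ (orth (der F u x)) + dg F u = n u + finrank ℝ (Rl (der F u (iT x))) := by
  set A : Matrix (Wi F u) (Fin (n u)) ℝ := Matrix.of fun i => rc (der F u x i) with hA
  have h1 : finrank ℝ (LinearMap.range (Matrix.mulVecLin A)) +
      finrank ℝ (LinearMap.ker (Matrix.mulVecLin A)) = n u := by
    have h := LinearMap.finrank_range_add_finrank_ker (Matrix.mulVecLin A)
    rwa [finrank_fintype_fun_eq_card, Fintype.card_fin] at h
  have h2 : finrank ℝ (LinearMap.range (Matrix.mulVecLin Aᵀ)) +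
      finrank ℝ (LinearMap.ker (Matrix.mulVecLin Aᵀ)) = Fintype.card (Wi F u) := by
    have h := LinearMap.finrank_range_add_finrank_ker (Matrix.mulVecLin Aᵀ)
    rwa [finrank_fintype_fun_eq_card] at h
  have h3 : finrank ℝ (LinearMap.range (Matrix.mulVecLin Aᵀ)) =
      finrank ℝ (LinearMap.range (Matrix.mulVecLin A)) := Matrix.rank_transpose A
  have h4 : LinearMap.ker (Matrix.mulVecLin Aᵀ) = Rl (der F u (iT x)) := by
    ext s
    rw [LinearMap.mem_ker, Matrix.mulVecLin_apply, mem_Rl]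
    have key : Aᵀ *ᵥ s = ∑ i, s i • der F u (iT x) i := by
      funext l
      rw [Finset.sum_apply]
      unfold mulVec dotProduct
      refine Finset.sum_congr rfl fun i _ => ?_
      have e : der F u (iT x) i = rc (der F u x i) := dd_iT i.1 u x
      rw [e]
      change A i l * s i = s i * rc (der F u x i) l
      rw [mul_comm]
      rfl
    rw [key]
  have h5 : finrank ℝ (orth (der F u x)) = finrank ℝ (LinearMap.ker (Matrix.mulVecLin A)) := rfl
  rw [h4] at h2
  unfold dg
  omega

/-- the number of points of a fibre -/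
theorem card_FX (u : V) (x : Tup n ℤ) {b : ℕ}
    (hb : b + dg F u = n u + finrank ℝ (Rl (der F u (iT x)))) {B : ℝ} (hB : 1 ≤ B) :
    ((FX F u x B).card : ℝ) ≤ (6 * B) ^ b := by
  have hV : finrank ℝ (orth (der F u x)) ≤ b := by
    have := finrank_orth (F := F) u x
    omega
  have h2 := FX_dbl (F := F) (v := u) (y := x) hV (ρ := 1 / 2) (B := B) (by norm_num) (by linarith)
  have h3 : (FX F u x (1 / 2)).card ≤ 1 := by
    apply Finset.card_le_one.2
    intro a ha c hc
    rw [mem_FX (by norm_num)] at ha hc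
    have e : ∀ v : Fin (n u) → ℤ, ‖ic v‖ ≤ 1 / 2 → v = 0 := by
      intro v hv
      by_contra h
      have := norm_ic_ge h
      linarith
    rw [e a ha.1, e c hc.1]
  calc ((FX F u x B).card : ℝ)
      ≤ (3 * B / (1 / 2)) ^ b * ((FX F u x (1 / 2)).card : ℝ) := h2
    _ ≤ (3 * B / (1 / 2)) ^ b * 1 := by
        gcongr
        exact_mod_cast h3
    _ = (6 * B) ^ b := by
        rw [mul_one]
        congr 1
        ring

/-! ### The bilinear forms -/

/-- the matrix of the linear combination of the forms, as a map from the second vector to the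
first one -/
noncomputable def Mx (F : Sys n k) (u v : V) (p : EuclideanSpace ℝ (II F u v) × Tup n ℝ) :
    Matrix (Fin (n u)) (Fin (n v)) ℝ :=
  Matrix.of fun l b => ∑ i : II F u v, p.1 i *
    ev F i.1 (update (update p.2 v (Pi.single b 1)) u (Pi.single l 1))

theorem dd_lin {u v : V} (huv : u ≠ v) (i : II F u v) (x : Tup n ℝ) (z : Fin (n v) → ℝ)
    (l : Fin (n u)) : dd F i.1 u (update x v z) l =
      ∑ b, ev F i.1 (update (update x v (Pi.single b 1)) u (Pi.single l 1)) * z b := by
  have h1 : dd F i.1 u (update x v z) l = ev F i.1 (update (update x u (Pi.single l 1)) v z) := by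
    unfold dd
    rw [update_comm huv.symm]
  rw [h1, ev_update i.2.2]
  unfold dotProduct
  refine Finset.sum_congr rfl fun b _ => ?_
  unfold dd
  rw [update_comm huv]

theorem Mx_mulVec {u v : V} (huv : u ≠ v) (s : EuclideanSpace ℝ (II F u v)) (x : Tup n ℝ)
    (z : Fin (n v) → ℝ) :
    Mx F u v (s, x) *ᵥ z = ∑ i : II F u v, s i • dd F i.1 u (update x v z) := by
  funext l
  rw [Finset.sum_apply]
  simp only [Pi.smul_apply, smul_eq_mul, dd_lin huv, Mx, mulVec, dotProduct, Matrix.of_apply,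
    Finset.sum_mul, Finset.mul_sum]
  rw [Finset.sum_comm]
  refine Finset.sum_congr rfl fun i _ => Finset.sum_congr rfl fun b _ => ?_
  ring

theorem ev_cont (i : Fin k) : Continuous fun x : Tup n ℝ => ev F i x := by
  unfold ev
  refine continuous_finsetSum _ fun j _ => continuous_const.mul ?_
  refine continuous_finsetProd _ fun v _ => ?_
  exact (continuous_apply (j v)).comp (continuous_apply (v : V))

theorem Mx_cont (u v : V) : Continuous (Mx F u v) := by
  unfold Mx
  refine continuous_matrix fun l b => ?_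
  simp only [Matrix.of_apply]
  refine continuous_finsetSum _ fun i _ => ?_
  refine Continuous.mul ?_ ?_
  · fun_prop
  · refine (ev_cont i.1).comp ?_
    exact (continuous_snd.update v continuous_const).update u continuous_const

/-- the linear map of a matrix -/
noncomputable def Ψ (a b : ℕ) : Matrix (Fin a) (Fin b) ℝ →ₗ[ℝ] ((Fin b → ℝ) →L[ℝ] (Fin a → ℝ)) :=
  (LinearMap.toContinuousLinearMap : ((Fin b → ℝ) →ₗ[ℝ] (Fin a → ℝ)) ≃ₗ[ℝ] _).toLinearMap.comp
    (Matrix.toLin' : Matrix (Fin a) (Fin b) ℝ ≃ₗ[ℝ] _).toLinearMap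

theorem Ψ_apply {a b : ℕ} (M : Matrix (Fin a) (Fin b) ℝ) (z : Fin b → ℝ) : Ψ a b M z = M *ᵥ z := rfl

theorem Ψ_cont (a b : ℕ) : Continuous (Ψ a b) := LinearMap.continuous_of_finiteDimensional _

/-- the family of linear maps -/
noncomputable def ff (F : Sys n k) (u v : V) (p : EuclideanSpace ℝ (II F u v) × Tup n ℝ) :
    (Fin (n v) → ℝ) →L[ℝ] (Fin (n u) → ℝ) := Ψ (n u) (n v) (Mx F u v p)

theorem ff_cont (u v : V) : Continuous (ff F u v) := (Ψ_cont _ _).comp (Mx_cont u v)

theorem ff_apply {u v : V} (huv : u ≠ v) (s : EuclideanSpace ℝ (II F u v)) (x : Tup n ℝ)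
    (z : Fin (n v) → ℝ) : ff F u v (s, x) z = ∑ i : II F u v, s i • dd F i.1 u (update x v z) :=
  Mx_mulVec huv s x z

/-- the rank -/
theorem ff_rank {D : ℕ} (h : RC F D) {u v : V} (huv : u ≠ v) {s : EuclideanSpace ℝ (II F u v)}
    {x : Tup n ℝ} (hs : s ≠ 0) (hx : ∀ t, t ≠ u → t ≠ v → x t ≠ 0) :
    D + 1 ≤ finrank ℝ (LinearMap.range (ff F u v (s, x) : (Fin (n v) → ℝ) →ₗ[ℝ] (Fin (n u) → ℝ))) := by
  classical
  set s' : Fin k → ℝ := fun i => if hi : u ∈ F.e i ∧ v ∈ F.e i then s ⟨i, hi⟩ else 0 with hs'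
  have h1 : ∀ i, s' i ≠ 0 → u ∈ F.e i ∧ v ∈ F.e i := by
    intro i hi
    by_contra hc
    exact hi (dif_neg hc)
  have h2 : s' ≠ 0 := by
    intro hc
    apply hs
    ext i
    have := congrFun hc i.1
    simp only [hs', i.2, and_self, dite_true, Pi.zero_apply] at this
    exact this
  have h3 := h u v huv s' h1 h2 x hx
  have h4 : (Matrix.of fun (b : Fin (n v)) (c : Fin (n u)) => ∑ i, s' i *
      ev F i (update (update x v (Pi.single b 1)) u (Pi.single c 1))) = (Mx F u v (s, x))ᵀ := by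
    ext b c
    simp only [Matrix.of_apply, Matrix.transpose_apply, Mx]
    have e1 : ∀ i, s' i * ev F i (update (update x v (Pi.single b 1)) u (Pi.single c 1)) =
        if u ∈ F.e i ∧ v ∈ F.e i then
          s' i * ev F i (update (update x v (Pi.single b 1)) u (Pi.single c 1)) else 0 := by
      intro i
      split_ifs with hi
      · rfl
      · simp only [hs']
        rw [dif_neg hi, zero_mul]
    rw [Finset.sum_congr rfl fun i _ => e1 i, ← Finset.sum_filter,
      Finset.sum_subtype (p := fun i => u ∈ F.e i ∧ v ∈ F.e i) _ (by simp)]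
    refine Finset.sum_congr rfl fun i _ => ?_
    simp only [hs']
    rw [dif_pos i.2]
  rw [h4, Matrix.rank_transpose] at h3
  exact h3

/-! ### Bounds -/

/-- the size of the coefficients -/
noncomputable def cT (F : Sys n k) (i : Fin k) : ℝ := ∑ j, |(F.T i j : ℝ)|

theorem cT_nonneg (i : Fin k) : 0 ≤ cT F i := Finset.sum_nonneg fun _ _ => abs_nonneg _

theorem ev_bound (i : Fin k) (x : Tup n ℝ) (B : V → ℝ) (hx : ∀ t ∈ F.e i, ‖x t‖ ≤ B t) :
    |ev F i x| ≤ cT F i * ∏ t ∈ F.e i, B t := by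
  unfold ev cT
  rw [Finset.sum_mul]
  refine (Finset.abs_sum_le_sum_abs _ _).trans (Finset.sum_le_sum fun j _ => ?_)
  rw [abs_mul, Finset.abs_prod, ← Finset.prod_coe_sort (F.e i) B]
  refine mul_le_mul_of_nonneg_left ?_ (abs_nonneg _)
  refine Finset.prod_le_prod (fun _ _ => abs_nonneg _) fun t _ => ?_
  have h1 := norm_le_pi_norm (x t) (j t)
  rw [Real.norm_eq_abs] at h1
  exact h1.trans (hx t t.2)

theorem dd_bound {u v : V} (huv : u ≠ v) (i : II F u v) {x : Tup n ℝ} (hx : ∀ t, ‖x t‖ ≤ 1)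
    (z : Fin (n v) → ℝ) : ‖dd F i.1 u (update x v z)‖ ≤ cT F i.1 * ‖z‖ := by
  rw [pi_norm_le_iff_of_nonneg (mul_nonneg (cT_nonneg _) (norm_nonneg _))]
  intro l
  rw [Real.norm_eq_abs]
  unfold dd
  refine (ev_bound i.1 _ (update (fun _ => (1 : ℝ)) v ‖z‖) ?_).trans (le_of_eq ?_)
  · intro t _
    by_cases htu : t = u
    · subst htu
      rw [update_self, update_of_ne huv]
      rw [pi_norm_le_iff_of_nonneg (by norm_num)]
      intro m
      by_cases hm : m = l
      · subst hm
        simp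
      · rw [Pi.single_eq_of_ne hm]
        simp
    · rw [update_of_ne htu]
      by_cases htv : t = v
      · subst htv
        rw [update_self, update_self]
      · rw [update_of_ne htv, update_of_ne htv]
        exact hx t
  · congr 1
    rw [← Finset.mul_prod_erase _ _ i.2.2, update_self]
    rw [Finset.prod_eq_one, mul_one]
    intro t ht
    rw [update_of_ne (Finset.ne_of_mem_erase ht)]

/-- the bound for the coefficients of the whole system -/
noncomputable def AT (F : Sys n k) : ℝ := ∑ i, cT F i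

theorem AT_nonneg : 0 ≤ AT F := Finset.sum_nonneg fun _ _ => cT_nonneg _

theorem ff_bound {u v : V} (huv : u ≠ v) (s : EuclideanSpace ℝ (II F u v)) {x : Tup n ℝ}
    (hx : ∀ t, ‖x t‖ ≤ 1) (z : Fin (n v) → ℝ) : ‖ff F u v (s, x) z‖ ≤ AT F * ‖s‖ * ‖z‖ := by
  rw [ff_apply huv]
  refine (norm_sum_le _ _).trans ?_
  have h1 : ∀ i : II F u v, ‖s i • dd F i.1 u (update x v z)‖ ≤ cT F i.1 * (‖s‖ * ‖z‖) := by
    intro i
    rw [norm_smul]
    calc ‖s i‖ * ‖dd F i.1 u (update x v z)‖ ≤ ‖s‖ * (cT F i.1 * ‖z‖) :=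
          mul_le_mul (PiLp.norm_apply_le s i) (dd_bound huv i hx z) (norm_nonneg _) (norm_nonneg _)
      _ = _ := by ring
  refine (Finset.sum_le_sum fun i _ => h1 i).trans ?_
  rw [← Finset.sum_mul, mul_assoc]
  refine mul_le_mul_of_nonneg_right ?_ (by positivity)
  unfold AT
  rw [← Finset.sum_subtype (p := fun i => u ∈ F.e i ∧ v ∈ F.e i)
    (Finset.univ.filter fun i => u ∈ F.e i ∧ v ∈ F.e i) (by simp) (cT F)]
  exact Finset.sum_le_sum_of_subset_of_nonneg (Finset.filter_subset _ _) fun i _ _ => cT_nonneg i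

/-- the compact set of the parameters -/
def KK (F : Sys n k) (u v : V) : Set (EuclideanSpace ℝ (II F u v) × Tup n ℝ) :=
  {p | 1 ≤ ‖p.1‖ ∧ ‖p.1‖ ≤ 3 * Fintype.card (II F u v) ∧ (∀ t, ‖p.2 t‖ ≤ 1) ∧
    ∀ t, t ≠ u → t ≠ v → ‖p.2 t‖ = 1}

theorem KK_compact (u v : V) : IsCompact (KK F u v) := by
  apply Metric.isCompact_of_isClosed_isBounded
  · have c1 : Continuous fun p : EuclideanSpace ℝ (II F u v) × Tup n ℝ => ‖p.1‖ :=
      continuous_fst.norm
    have c2 : ∀ t, Continuous fun p : EuclideanSpace ℝ (II F u v) × Tup n ℝ => ‖p.2 t‖ := fun t =>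
      ((continuous_apply t).comp continuous_snd).norm
    refine (isClosed_le continuous_const c1).inter ((isClosed_le c1 continuous_const).inter
      (IsClosed.inter ?_ ?_))
    · have : {p : EuclideanSpace ℝ (II F u v) × Tup n ℝ | ∀ t, ‖p.2 t‖ ≤ 1} =
          ⋂ t, {p | ‖p.2 t‖ ≤ 1} := by ext; simp
      change IsClosed {p : EuclideanSpace ℝ (II F u v) × Tup n ℝ | ∀ t, ‖p.2 t‖ ≤ 1}
      rw [this]
      exact isClosed_iInter fun t => isClosed_le (c2 t) continuous_const
    · have : {p : EuclideanSpace ℝ (II F u v) × Tup n ℝ | ∀ t, t ≠ u → t ≠ v → ‖p.2 t‖ = 1} =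
          ⋂ t, ⋂ (_ : t ≠ u), ⋂ (_ : t ≠ v), {p | ‖p.2 t‖ = 1} := by ext; simp
      change IsClosed {p : EuclideanSpace ℝ (II F u v) × Tup n ℝ | ∀ t, t ≠ u → t ≠ v → ‖p.2 t‖ = 1}
      rw [this]
      exact isClosed_iInter fun t => isClosed_iInter fun _ => isClosed_iInter fun _ =>
        isClosed_eq (c2 t) continuous_const
  · apply (Metric.isBounded_closedBall (x := (0 : EuclideanSpace ℝ (II F u v) × Tup n ℝ))
      (r := 3 * Fintype.card (II F u v) + 1)).subset
    rintro ⟨a, b⟩ ⟨h1, h2, h3, h4⟩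
    rw [Metric.mem_closedBall, dist_zero_right, Prod.norm_def]
    simp only at h1 h2 h3 h4 ⊢
    have h0 : (0 : ℝ) ≤ Fintype.card (II F u v) := Nat.cast_nonneg _
    refine max_le (by linarith) ?_
    rw [pi_norm_le_iff_of_nonneg (by positivity)]
    intro t
    linarith [h3 t]

/-! ### Relations -/

theorem sum_II {M : Type} [AddCommMonoid M] (u v : V) (f : Fin k → M) :
    ∑ i : II F u v, f i.1 = ∑ i : Wi F u, if v ∈ F.e i.1 then f i.1 else 0 := by
  rw [← Finset.sum_subtype (p := fun i => u ∈ F.e i ∧ v ∈ F.e i)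
      (Finset.univ.filter fun i => u ∈ F.e i ∧ v ∈ F.e i) (by simp) f,
    ← Finset.sum_subtype (p := fun i => u ∈ F.e i)
      (Finset.univ.filter fun i => u ∈ F.e i) (by simp) (fun i => if v ∈ F.e i then f i else 0),
    ← Finset.sum_filter, Finset.filter_filter]

theorem dd_not {u v : V} (huv : u ≠ v) {i : Fin k} (hi : v ∉ F.e i) (x : Tup n ℝ)
    (z : Fin (n v) → ℝ) : dd F i u (update x v z) = dd F i u x := by
  unfold dd
  funext l
  rw [update_comm huv.symm, ev_update_not hi]

/-- the scaling factors -/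
noncomputable def sc (u v : V) (y : Tup n ℤ) (t : V) : ℝ := if t = u ∨ t = v then 1 else ‖ic (y t)‖

/-- the normed family -/
noncomputable def nm (u v : V) (y : Tup n ℤ) : Tup n ℝ := fun t =>
  if t = u ∨ t = v then 0 else ‖ic (y t)‖⁻¹ • ic (y t)

theorem nm_le (u v : V) (y : Tup n ℤ) (t : V) : ‖nm u v y t‖ ≤ 1 := by
  unfold nm
  split_ifs with h
  · simp
  · rw [norm_smul, norm_inv, norm_norm]
    exact inv_mul_le_one

theorem nm_eq {u v : V} {y : Tup n ℤ} (hy : ∀ t, t ≠ u → t ≠ v → y t ≠ 0) {t : V} (h1 : t ≠ u)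
    (h2 : t ≠ v) : ‖nm u v y t‖ = 1 := by
  unfold nm
  have h3 : ‖ic (y t)‖ ≠ 0 := by
    have := norm_ic_ge (hy t h1 h2)
    linarith
  rw [if_neg (by tauto), norm_smul, norm_inv, norm_norm, inv_mul_cancel₀ h3]

theorem sc_ne {u v : V} {y : Tup n ℤ} (hy : ∀ t, t ≠ u → t ≠ v → y t ≠ 0) (t : V) :
    sc u v y t ≠ 0 := by
  unfold sc
  split_ifs with h
  · norm_num
  · have := norm_ic_ge (hy t (by tauto) (by tauto))
    linarith

/-- the product of the scaling factors -/
noncomputable def pc (F : Sys n k) (u v : V) (y : Tup n ℤ) (i : Fin k) : ℝ :=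
  ∏ t ∈ (F.e i).erase u, sc u v y t

theorem pc_ne {u v : V} {y : Tup n ℤ} (hy : ∀ t, t ≠ u → t ≠ v → y t ≠ 0) (i : Fin k) :
    pc F u v y i ≠ 0 := Finset.prod_ne_zero_iff.2 fun t _ => sc_ne hy t

theorem dd_norm {u v : V} {y : Tup n ℤ} (hy : ∀ t, t ≠ u → t ≠ v → y t ≠ 0)
    (hu : y u = 0) (z : Fin (n v) → ℤ) {i : Fin k} (hi : u ∈ F.e i) :
    dd F i u (iT (update y v z)) = pc F u v y i • dd F i u (update (nm u v y) v (ic z)) := by
  rw [pc, ← dd_smul i hi]
  congr 1
  rw [iT_update]
  funext t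
  by_cases htv : t = v
  · subst htv
    rw [update_self, update_self]
    unfold sc
    rw [if_pos (Or.inr rfl), one_smul]
  · rw [update_of_ne htv, update_of_ne htv]
    by_cases htu : t = u
    · subst htu
      unfold sc nm iT
      rw [if_pos (Or.inl rfl), if_pos (Or.inl rfl), one_smul, hu]
      funext l
      simp [ic]
    · unfold sc nm iT
      rw [if_neg (by tauto), if_neg (by tauto), smul_smul, mul_inv_cancel₀, one_smul]
      have := norm_ic_ge (hy t htu htv)
      linarith

/-- the space of the derivatives which do not depend on the second vector -/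
noncomputable def WW (F : Sys n k) (u v : V) (x : Tup n ℝ) : Submodule ℝ (Fin (n u) → ℝ) :=
  Submodule.span ℝ (Set.range fun j : JJ F u v => dd F j.1 u x)

theorem finrank_WW (u v : V) (x : Tup n ℝ) :
    finrank ℝ (WW F u v x) ≤ Fintype.card (JJ F u v) := finrank_range_le_card _

/-- the relations modulo these derivatives -/
noncomputable def SX (F : Sys n k) (u v : V) (x : Tup n ℝ) (z : Fin (n v) → ℝ) :
    Submodule ℝ (EuclideanSpace ℝ (II F u v)) :=
  (WW F u v x).comap ((Fintype.linearCombination ℝ (fun i : II F u v => dd F i.1 u (update x v z))).comp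
    (WithLp.linearEquiv 2 ℝ (II F u v → ℝ)).toLinearMap)

theorem mem_SX {u v : V} {x : Tup n ℝ} {z : Fin (n v) → ℝ} {s : EuclideanSpace ℝ (II F u v)} :
    s ∈ SX F u v x z ↔ ∑ i : II F u v, s i • dd F i.1 u (update x v z) ∈ WW F u v x := Iff.rfl

/-- **The relations are determined by the forms which depend on both vectors.** -/
theorem rel_le {u v : V} (huv : u ≠ v) {y : Tup n ℤ} (hy : ∀ t, t ≠ u → t ≠ v → y t ≠ 0)
    (hu : y u = 0) (hG : ∃ z, GI F u (update y v z)) (z : Fin (n v) → ℤ) :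
    finrank ℝ (Rl (der F u (iT (update y v z)))) ≤ finrank ℝ (SX F u v (nm u v y) (ic z)) := by
  classical
  set g₀ : (Wi F u → ℝ) →ₗ[ℝ] (II F u v → ℝ) :=
      { toFun := fun s i => pc F u v y i.1 * s ⟨i.1, i.2.1⟩
        map_add' := fun s t => by funext i; simp [mul_add]
        map_smul' := fun c s => by funext i; simp; ring } with hg₀
  set g : (Wi F u → ℝ) →ₗ[ℝ] EuclideanSpace ℝ (II F u v) :=
    (WithLp.linearEquiv 2 ℝ (II F u v → ℝ)).symm.toLinearMap ∘ₗ g₀ with hg
  have hgi : ∀ s (i : II F u v), g s i = pc F u v y i.1 * s ⟨i.1, i.2.1⟩ := fun s i => rfl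
  have hmap : ∀ s ∈ Rl (der F u (iT (update y v z))), g s ∈ SX F u v (nm u v y) (ic z) := by
    intro s hs
    rw [mem_Rl] at hs
    rw [mem_SX]
    have e1 : ∑ i : II F u v, g s i • dd F i.1 u (update (nm u v y) v (ic z)) =
        ∑ i : Wi F u, if v ∈ F.e i.1 then s i • der F u (iT (update y v z)) i else 0 := by
      have := sum_II (F := F) u v (fun i => if h : u ∈ F.e i then
        s ⟨i, h⟩ • dd F i u (iT (update y v z)) else 0)
      rw [Finset.sum_congr rfl fun i _ => (?_ : g s i • dd F i.1 u (update (nm u v y) v (ic z)) = (if h : u ∈ F.e i.1 then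
        s ⟨i.1, h⟩ • dd F i.1 u (iT (update y v z)) else 0)), this]
      · refine Finset.sum_congr rfl fun i _ => ?_
        rw [dif_pos i.2]
        rfl
      · rw [dif_pos i.2.1, hgi, dd_norm hy hu z i.2.1, smul_smul]
        congr 1
        ring
    have e2 : ∑ i : Wi F u, (if v ∈ F.e i.1 then s i • der F u (iT (update y v z)) i else 0) =
        -∑ i : Wi F u, if v ∈ F.e i.1 then 0 else s i • der F u (iT (update y v z)) i := by
      rw [eq_neg_iff_add_eq_zero, ← Finset.sum_add_distrib]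
      refine Eq.trans (Finset.sum_congr rfl fun i _ => ?_) hs
      split_ifs <;> simp
    rw [e1, e2]
    refine Submodule.neg_mem _ (Submodule.sum_mem _ fun i _ => ?_)
    split_ifs with hi
    · exact Submodule.zero_mem _
    · refine Submodule.smul_mem _ _ ?_
      unfold der
      rw [dd_norm hy hu z i.2, dd_not huv hi]
      exact Submodule.smul_mem _ _ (Submodule.subset_span ⟨⟨i.1, i.2, hi⟩, rfl⟩)
  refine LinearMap.finrank_le_finrank_of_injective (f := g.restrict hmap) ?_
  rw [injective_iff_map_eq_zero]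
  rintro ⟨s, hs⟩ h0
  have h1 : g s = 0 := congrArg Subtype.val h0
  have h2 : ∀ i : Wi F u, v ∈ F.e i.1 → s i = 0 := by
    intro i hi
    have h3 : g s ⟨i.1, i.2, hi⟩ = 0 := by rw [h1]; rfl
    rw [hgi] at h3
    exact (mul_eq_zero.1 h3).resolve_left (pc_ne hy _)
  obtain ⟨z', hz'⟩ := hG
  unfold GI at hz'
  rw [Fintype.linearIndependent_iff] at hz'
  apply Subtype.ext
  funext i
  refine hz' s ?_ i
  rw [mem_Rl] at hs
  refine Eq.trans (Finset.sum_congr rfl fun i _ => ?_) hs
  by_cases hi : v ∈ F.e i.1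
  · rw [h2 i hi, zero_smul, zero_smul]
  · congr 1
    unfold der
    rw [iT_update, iT_update, dd_not huv hi, dd_not huv hi]

end Pool.Agent.N478.MM.Deg
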