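import Mathlib
import Pool.Agent.N478.MM.DegA

/-!
The bad families: the count.
-/

set_option autoImplicit false
set_option linter.unusedSectionVars false

namespace Pool.Agent.N478.MM

open Matrix Module Filter Topology Function
open Pool.Agent.N852 (ic ic_add ic_sub ic_neg)
open Pool.Agent.N852.DD (Bl mem_Bl card_Bl norm_ic_ge)
open Pool.Agent.N852.MM
open Pool.Agent.H548.BL (lat orth mem_lat mem_orth rc)

namespace Deg

variable {V : Type} [Fintype V] [DecidableEq V] {n : V → ℕ} {k : ℕ} {F : Sys n k}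

theorem sum_dg (F : Sys n k) : ∑ t, dg F t = ∑ i, (F.e i).card := by
  have h1 : ∀ t, dg F t = ∑ i, if t ∈ F.e i then 1 else 0 := by
    intro t
    unfold dg
    rw [Fintype.card_subtype, Finset.card_filter]
  have h2 : ∀ i, (F.e i).card = ∑ t, if t ∈ F.e i then 1 else 0 := by
    intro i
    rw [← Finset.card_filter]
    congr 1
    ext t
    simp
  rw [Finset.sum_congr rfl fun t _ => h1 t, Finset.sum_congr rfl fun i _ => h2 i, Finset.sum_comm]

open Classical in
/-- the second vectors for which the family becomes bad -/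
noncomputable def ZZ (F : Sys n k) (u v : V) (y : Tup n ℤ) (μ : ℝ) : Finset (Fin (n v) → ℤ) :=
  (Bl (n v) μ).filter fun z => ¬ GI F u (update y v z)

theorem mem_ZZ {u v : V} {y : Tup n ℤ} {μ : ℝ} (hμ : 0 ≤ μ) {z : Fin (n v) → ℤ} :
    z ∈ ZZ F u v y μ ↔ ‖ic z‖ ≤ μ ∧ ¬ GI F u (update y v z) := by
  classical
  unfold ZZ
  rw [Finset.mem_filter, mem_Bl hμ]

/-- **The sum over the second vectors.** -/
theorem cell (hA : CellP) (hB : CntP) (hC : CptP) {D : ℕ} (h2 : ∀ i, 2 ≤ (F.e i).card)
    (hD : D = ∑ i, (F.e i).card) (hRC : RC F D) {u v : V} (huv : u ≠ v) :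
    ∃ C : ℝ, 0 ≤ C ∧ ∀ (y : Tup n ℤ) (μ : ℝ), 1 ≤ μ → (∀ t, t ≠ u → t ≠ v → y t ≠ 0) → y u = 0 →
      (∃ z, GI F u (update y v z)) →
      (∑ z ∈ ZZ F u v y μ, μ ^ finrank ℝ (Rl (der F u (iT (update y v z))))) * μ ^ (D + 1) ≤
        C * μ ^ (dg F u + n v) := by
  classical
  obtain ⟨C₁, hC₁, hcell⟩ := hA (II F u v)
  obtain ⟨c, hc, hcpt⟩ := hC (EuclideanSpace ℝ (II F u v) × Tup n ℝ) (KK F u v) (n v) (n u) (D + 1)
    (ff F u v) (KK_compact u v) (ff_cont u v).continuousOn (by
      rintro ⟨s, x⟩ ⟨h1, -, -, h4⟩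
      refine ff_rank hRC huv ?_ ?_
      · intro h
        simp only [h, norm_zero] at h1
        linarith
      · intro t ht1 ht2 h
        have := h4 t ht1 ht2
        simp only [h, norm_zero] at this
        linarith)
  set A : ℝ := AT F * (3 * Fintype.card (II F u v) + 2) with hAdef
  have hAT := AT_nonneg (F := F)
  have hA0 : 0 ≤ A := by positivity
  obtain ⟨C₂, hC₂, hcnt⟩ := hB (n v) (n u) (D + 1) c A hc hA0
  refine ⟨C₁ * C₂, by positivity, ?_⟩
  intro y μ hμ hy hu hG
  have hμ0 : 0 < μ := by linarith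
  set x : Tup n ℝ := nm u v y with hx
  have hJ : Fintype.card (JJ F u v) ≤ D := by
    calc Fintype.card (JJ F u v) ≤ Fintype.card (Fin k) := Fintype.card_subtype_le _
      _ = ∑ i : Fin k, 1 := by simp
      _ ≤ ∑ i, (F.e i).card := Finset.sum_le_sum fun i _ => (by have := h2 i; omega)
      _ = D := hD.symm
  rcases (ZZ F u v y μ).eq_empty_or_nonempty with hZ | hZ
  · rw [hZ, Finset.sum_empty, zero_mul]
    positivity
  have hfin : ∀ z ∈ ZZ F u v y μ, 1 ≤ finrank ℝ (Rl (der F u (iT (update y v z)))) := by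
    intro z hz
    rw [mem_ZZ hμ0.le] at hz
    exact Rl_pos.2 hz.2
  have hrel : ∀ z, finrank ℝ (Rl (der F u (iT (update y v z)))) ≤
      finrank ℝ (SX F u v x (ic z)) := fun z => rel_le huv hy hu hG z
  obtain ⟨z₀, hz₀⟩ := hZ
  have hI : 0 < Fintype.card (II F u v) := by
    have h3 := (hfin z₀ hz₀).trans (hrel z₀)
    have h4 := Submodule.finrank_le (SX F u v x (ic z₀))
    rw [finrank_euclideanSpace] at h4
    omega
  obtain ⟨i₀⟩ := Fintype.card_pos_iff.1 hI
  have hnv : D + 1 ≤ n v := by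
    have h3 := ff_rank hRC huv (s := EuclideanSpace.single i₀ (1 : ℝ)) (x := x) (by
      intro h
      have := congrArg (fun f => f i₀) h
      simp at this) (fun t h1 h2 h3 => by
        have := nm_eq hy h1 h2
        rw [← hx, h3, norm_zero] at this
        norm_num at this)
    have h4 := LinearMap.finrank_range_le
      (ff F u v (EuclideanSpace.single i₀ (1 : ℝ), x) : (Fin (n v) → ℝ) →ₗ[ℝ] (Fin (n u) → ℝ))
    rw [finrank_fintype_fun_eq_card, Fintype.card_fin] at h4
    omega
  have key := hcell (Fin (n v) → ℤ) (ZZ F u v y μ) (fun z => SX F u v x (ic z)) μ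
    (C₂ * μ ^ (n v - (D + 1 - Fintype.card (JJ F u v)))) hμ (by positivity)
    (fun z hz => (hfin z hz).trans (hrel z)) (by
      intro s₀ Y hs1 hs2 hY
      have hmem : (s₀, x) ∈ KK F u v := ⟨hs1, hs2, fun t => nm_le u v y t,
        fun t h1 h2 => nm_eq hy h1 h2⟩
      obtain ⟨P, hP1, hP2⟩ := hcpt (s₀, x) hmem
      refine hcnt (ff F u v (s₀, x) : (Fin (n v) → ℝ) →ₗ[ℝ] (Fin (n u) → ℝ)) (WW F u v x) P
        (Fintype.card (JJ F u v)) ?_ hP1 hP2 (finrank_WW u v x) (by omega) μ Y hμ ?_ ?_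
      · intro z
        refine (ff_bound huv s₀ (fun t => nm_le u v y t) z).trans ?_
        refine mul_le_mul_of_nonneg_right ?_ (norm_nonneg _)
        rw [hAdef]
        refine mul_le_mul_of_nonneg_left ?_ hAT
        linarith
      · intro z hz
        exact ((mem_ZZ hμ0.le).1 (hY z hz).1).1
      · have hone : ∀ z ∈ Y, ∃ w ∈ WW F u v x, ‖ff F u v (s₀, x) (ic z) - w‖ ≤ AT F := by
          intro z hz
          obtain ⟨hz1, s, hs, -, -, hs4⟩ := hY z hz
          rw [mem_SX] at hs
          refine ⟨_, hs, ?_⟩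
          have e1 : ff F u v (s₀, x) (ic z) - ∑ i : II F u v, s i • dd F i.1 u (update x v (ic z)) =
              ff F u v (s₀ - s, x) (ic z) := by
            rw [ff_apply huv, ff_apply huv, ← Finset.sum_sub_distrib]
            refine Finset.sum_congr rfl fun i _ => ?_
            rw [← sub_smul]
            rfl
          rw [e1]
          refine (ff_bound huv _ (fun t => nm_le u v y t) _).trans ?_
          have h5 : ‖ic z‖ ≤ μ := ((mem_ZZ hμ0.le).1 hz1).1
          have h6 : ‖s₀ - s‖ ≤ 1 / μ := by rw [norm_sub_rev]; exact hs4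
          calc AT F * ‖s₀ - s‖ * ‖ic z‖ ≤ AT F * (1 / μ) * μ := by gcongr
            _ = AT F := by field_simp
        intro z hz z' hz'
        obtain ⟨w, hw, hw'⟩ := hone z hz
        obtain ⟨w₁, hw₁, hw₁'⟩ := hone z' hz'
        refine ⟨w - w₁, Submodule.sub_mem _ hw hw₁, ?_⟩
        have e2 : (ff F u v (s₀, x) : (Fin (n v) → ℝ) →ₗ[ℝ] (Fin (n u) → ℝ)) (ic z - ic z') -
            (w - w₁) = (ff F u v (s₀, x) (ic z) - w) - (ff F u v (s₀, x) (ic z') - w₁) := by
          rw [map_sub]
          change ff F u v (s₀, x) (ic z) - ff F u v (s₀, x) (ic z') - (w - w₁) = _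
          abel
        rw [e2]
        refine (norm_sub_le _ _).trans ?_
        have h0 : (0 : ℝ) ≤ Fintype.card (II F u v) := Nat.cast_nonneg _
        rw [hAdef]
        nlinarith)
  have hexp : Fintype.card (II F u v) + (n v - (D + 1 - Fintype.card (JJ F u v))) + (D + 1) =
      dg F u + n v := by
    have := card_IJ F u v
    omega
  calc (∑ z ∈ ZZ F u v y μ, μ ^ finrank ℝ (Rl (der F u (iT (update y v z))))) * μ ^ (D + 1)
      ≤ (∑ z ∈ ZZ F u v y μ, μ ^ finrank ℝ (SX F u v x (ic z))) * μ ^ (D + 1) := by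
        refine mul_le_mul_of_nonneg_right (Finset.sum_le_sum fun z _ => ?_) (by positivity)
        exact pow_le_pow_right₀ hμ (hrel z)
    _ ≤ (C₁ * μ ^ Fintype.card (II F u v) *
          (C₂ * μ ^ (n v - (D + 1 - Fintype.card (JJ F u v))))) * μ ^ (D + 1) :=
        mul_le_mul_of_nonneg_right key (by positivity)
    _ = C₁ * C₂ * μ ^ (Fintype.card (II F u v) + (n v - (D + 1 - Fintype.card (JJ F u v))) +
          (D + 1)) := by
        rw [pow_add, pow_add]
        ring
    _ = _ := by rw [hexp]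

/-! ### The families with a bad vector -/

theorem ev_zero {i : Fin k} {x : Tup n ℝ} {t : V} (ht : t ∈ F.e i) (h : x t = 0) :
    ev F i x = 0 := by
  rw [ev_eq ht, h, dotProduct_zero]

theorem GI_update (u : V) (x : Tup n ℤ) (w : Fin (n u) → ℤ) :
    GI F u (update x u w) ↔ GI F u x := by
  unfold GI
  rw [iT_update, der_update]

theorem ne_zero_of (h2 : ∀ i, 2 ≤ (F.e i).card) (hc : ∀ v, ∃ i, v ∈ F.e i) {v t : V} (htv : t ≠ v)
    {x : Tup n ℤ} (h : ∃ z, ∀ w, GI F w (update x v z)) : x t ≠ 0 := by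
  obtain ⟨i, hi⟩ := hc t
  obtain ⟨z, hz⟩ := h
  obtain ⟨w, hw, hwt⟩ := Finset.exists_mem_ne (by have := h2 i; omega : 1 < (F.e i).card) t
  intro h0
  have h3 : der F w (iT (update x v z)) ⟨i, hw⟩ ≠ 0 := (hz w).ne_zero _
  apply h3
  funext l
  refine ev_zero hi ?_
  rw [update_of_ne hwt.symm]
  unfold iT
  rw [update_of_ne htv, h0]
  funext m
  simp [ic]

open Classical in
/-- the bases of the bad families -/
noncomputable def BY (F : Sys n k) (u v : V) (X : V → ℝ) : Finset (Tup n ℤ) :=
  (Bx n (update (update X u 0) v 0)).filter fun y =>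
    (∀ t, t ≠ u → t ≠ v → y t ≠ 0) ∧ ∃ z, GI F u (update y v z)

open Classical in
/-- the bad families -/
noncomputable def Bad (F : Sys n k) (u v : V) (X : V → ℝ) : Finset (Tup n ℤ) :=
  (TX F (GI F) v X).filter fun x => ¬ GI F u x

theorem up_nonneg {X : V → ℝ} (hX : ∀ u, 1 ≤ X u) (u v t : V) :
    0 ≤ update (update X u 0) v 0 t := by
  by_cases h1 : t = v
  · subst h1
    rw [update_self]
  · rw [update_of_ne h1]
    by_cases h2 : t = u
    · subst h2
      rw [update_self]
    · rw [update_of_ne h2]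
      linarith [hX t]

theorem mem_BY {u v : V} (huv : u ≠ v) {X : V → ℝ} (hX : ∀ u, 1 ≤ X u) {y : Tup n ℤ}
    (hy : y ∈ BY F u v X) : (∀ t, t ≠ u → t ≠ v → y t ≠ 0) ∧ y u = 0 ∧
      ∃ z, GI F u (update y v z) := by
  classical
  unfold BY at hy
  rw [Finset.mem_filter, mem_Bx (up_nonneg hX u v)] at hy
  refine ⟨hy.2.1, ?_, hy.2.2⟩
  have h := hy.1 u
  rw [update_of_ne huv, update_self] at h
  by_contra hc
  have := norm_ic_ge hc
  linarith

theorem card_BY (u v : V) {X : V → ℝ} (hX : ∀ u, 1 ≤ X u) :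
    ((BY F u v X).card : ℝ) ≤ ∏ t, if t = u ∨ t = v then 1 else (3 * X t) ^ n t := by
  classical
  have h1 : (BY F u v X).card ≤ (Bx n (update (update X u 0) v 0)).card :=
    Finset.card_le_card (Finset.filter_subset _ _)
  refine (Nat.cast_le.2 h1).trans ?_
  unfold Bx
  rw [Fintype.card_piFinset]
  push_cast
  refine Finset.prod_le_prod (fun _ _ => Nat.cast_nonneg _) fun t _ => ?_
  split_ifs with ht
  · have h2 : update (update X u 0) v 0 t = 0 := by
      rcases ht with rfl | rfl
      · by_cases h : t = v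
        · subst h
          rw [update_self]
        · rw [update_of_ne h, update_self]
      · rw [update_self]
    rw [h2]
    have h3 : (Bl (n t) 0).card ≤ 1 := by
      apply Finset.card_le_one.2
      intro a ha b hb
      rw [mem_Bl le_rfl] at ha hb
      rw [norm_ic_zero ha, norm_ic_zero hb]
    exact_mod_cast h3
  · push Not at ht
    rw [update_of_ne ht.2, update_of_ne ht.1]
    exact card_Bl (hX t)

/-- the number of bad families -/
theorem card_Bad (h2 : ∀ i, 2 ≤ (F.e i).card) (hc : ∀ v, ∃ i, v ∈ F.e i) {u v : V} (huv : u ≠ v)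
    {X : V → ℝ} (hX : ∀ u, 1 ≤ X u) : (Bad F u v X).card ≤
      ∑ y ∈ BY F u v X, ∑ z ∈ ZZ F u v y (X v), (FX F u (update y v z) (X u)).card := by
  classical
  have hX0 : ∀ u, 0 ≤ X u := fun u => by linarith [hX u]
  have e : ∑ y ∈ BY F u v X, ∑ z ∈ ZZ F u v y (X v), (FX F u (update y v z) (X u)).card =
      ((BY F u v X).sigma fun y => (ZZ F u v y (X v)).sigma fun z =>
        FX F u (update y v z) (X u)).card := by
    rw [Finset.card_sigma]
    refine Finset.sum_congr rfl fun y _ => ?_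
    rw [Finset.card_sigma]
  rw [e]
  refine Finset.card_le_card_of_injOn
    (fun x => ⟨update (update x u 0) v 0, ⟨x v, x u⟩⟩) ?_ ?_
  · intro x hx
    rw [Finset.mem_coe] at hx
    unfold Bad at hx
    rw [Finset.mem_filter, mem_TX hX0] at hx
    obtain ⟨⟨h3, h4, h5, h6⟩, h7⟩ := hx
    have e1 : ∀ z, update (update (update x u 0) v 0) v z = update (update x v z) u 0 := by
      intro z
      rw [update_idem, update_comm huv]
    have e2 : update (update x v (x v)) u 0 = update x u 0 := by rw [update_eq_self]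
    rw [Finset.mem_coe, Finset.mem_sigma]
    refine ⟨?_, ?_⟩
    · unfold BY
      rw [Finset.mem_filter, mem_Bx (up_nonneg hX u v)]
      refine ⟨fun t => ?_, fun t ht1 ht2 => ?_, ?_⟩
      · simp only
        by_cases ht2 : t = v
        · subst ht2
          simp only [update_self, ic_zero, norm_zero, le_refl]
        · rw [update_of_ne ht2, update_of_ne ht2]
          by_cases ht1 : t = u
          · subst ht1
            simp only [update_self, ic_zero, norm_zero, le_refl]
          · rw [update_of_ne ht1, update_of_ne ht1]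
            exact h3 t
      · simp only
        rw [update_of_ne ht2, update_of_ne ht1]
        exact ne_zero_of h2 hc ht2 h6
      · obtain ⟨z, hz⟩ := h6
        refine ⟨z, ?_⟩
        rw [e1, GI_update]
        exact hz u
    · simp only
      rw [Finset.mem_sigma]
      refine ⟨?_, ?_⟩
      · simp only
        rw [mem_ZZ (hX0 v), e1, GI_update, update_eq_self]
        exact ⟨h3 v, h7⟩
      · simp only
        rw [mem_FX (hX0 u), e1, e2, mem_lat, der_update]
        exact ⟨h3 u, ((inc_iff u x).1 h4).2⟩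
  · intro x _ x' _ h
    simp only [Sigma.mk.injEq, heq_eq_eq] at h
    obtain ⟨h3, h4, h5⟩ := h
    funext t
    by_cases htv : t = v
    · subst htv
      exact h4
    · by_cases htu : t = u
      · subst htu
        exact h5
      · have h6 := congrFun h3 t
        rwa [update_of_ne htv, update_of_ne htv, update_of_ne htu, update_of_ne htu] at h6

/-- the products -/
theorem prod_two {u v : V} (huv : u ≠ v) (S : V → ℝ) :
    S u * S v * ∏ t, (if t = u ∨ t = v then 1 else S t) = ∏ t, S t := by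
  rw [← Finset.mul_prod_erase Finset.univ S (Finset.mem_univ u),
    ← Finset.mul_prod_erase (Finset.univ.erase u) S
      (Finset.mem_erase.2 ⟨huv.symm, Finset.mem_univ v⟩),
    ← Finset.mul_prod_erase Finset.univ (fun t => if t = u ∨ t = v then (1 : ℝ) else S t)
      (Finset.mem_univ u),
    ← Finset.mul_prod_erase (Finset.univ.erase u) (fun t => if t = u ∨ t = v then (1 : ℝ) else S t)
      (Finset.mem_erase.2 ⟨huv.symm, Finset.mem_univ v⟩)]
  rw [if_pos (Or.inl rfl), if_pos (Or.inr rfl), one_mul, one_mul, mul_assoc]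
  congr 2
  refine Finset.prod_congr rfl fun t ht => ?_
  rw [Finset.mem_erase, Finset.mem_erase] at ht
  rw [if_neg]
  tauto

/-- **The number of families with a bad vector `u`.** -/
theorem bad_bound (hA : CellP) (hB : CntP) (hC : CptP) {a : V → ℕ} {D : ℕ}
    (h2 : ∀ i, 2 ≤ (F.e i).card) (hc : ∀ v, ∃ i, v ∈ F.e i) (ha : ∀ v, a v + dg F v = n v)
    (hD : D = ∑ i, (F.e i).card) (hRC : RC F D) {u v : V} (huv : u ≠ v) :
    ∃ C : ℝ, 0 ≤ C ∧ ∀ (X : V → ℝ) (g : ℝ), (∀ u, 1 ≤ X u) → 1 ≤ g → (∀ u, X u ≤ g * X v) →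
      ((Bad F u v X).card : ℝ) ≤ C * Nm a X * (g ^ D / X v) := by
  classical
  obtain ⟨C, hC0, hcell⟩ := cell hA hB hC h2 hD hRC huv
  refine ⟨3 ^ (∑ t, n t) * 6 ^ n u * C, by positivity, ?_⟩
  intro X g hX hg hXg
  have hX0 : ∀ u, 0 < X u := fun u => by linarith [hX u]
  set μ : ℝ := X v with hμ
  have hμ1 : 1 ≤ μ := hX v
  have hμ0 : 0 < μ := by linarith
  have hg0 : 0 < g := by linarith
  have hgμ : 1 ≤ g * μ := by nlinarith
  set S : V → ℝ := fun t => X t ^ a t * (g * μ) ^ dg F t with hS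
  -- one base
  have hone : ∀ y ∈ BY F u v X,
      (∑ z ∈ ZZ F u v y μ, ((FX F u (update y v z) (X u)).card : ℝ)) * μ ^ (D + 1) ≤
        6 ^ n u * (X u ^ a u * g ^ dg F u) * (C * μ ^ (dg F u + n v)) := by
    intro y hy
    obtain ⟨hy1, hy2, hy3⟩ := mem_BY huv hX hy
    have h3 : ∀ z ∈ ZZ F u v y μ, ((FX F u (update y v z) (X u)).card : ℝ) ≤
        6 ^ n u * (X u ^ a u * g ^ dg F u) *
          μ ^ finrank ℝ (Rl (der F u (iT (update y v z)))) := by
      intro z _
      set j := finrank ℝ (Rl (der F u (iT (update y v z)))) with hj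
      have hjle : j ≤ dg F u := finrank_Rl_le _
      have h4 := card_FX (F := F) u (update y v z) (b := a u + j) (by
        have := ha u
        omega) (hX u)
      refine h4.trans ?_
      calc (6 * X u) ^ (a u + j) = 6 ^ (a u + j) * (X u ^ a u * X u ^ j) := by
            rw [mul_pow, pow_add (X u)]
        _ ≤ 6 ^ n u * (X u ^ a u * (g ^ dg F u * μ ^ j)) := by
            have hXu := hX0 u
            have e1 : (6 : ℝ) ^ (a u + j) ≤ 6 ^ n u :=
              pow_le_pow_right₀ (by norm_num) (by have := ha u; omega)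
            have h5 : X u ^ j ≤ (g * μ) ^ j := pow_le_pow_left₀ (hX0 u).le (hXg u) j
            rw [mul_pow] at h5
            have h6 : g ^ j ≤ g ^ dg F u := pow_le_pow_right₀ hg hjle
            have h7 : X u ^ j ≤ g ^ dg F u * μ ^ j :=
              h5.trans (mul_le_mul_of_nonneg_right h6 (by positivity))
            exact mul_le_mul e1 (mul_le_mul_of_nonneg_left h7 (by positivity)) (by positivity)
              (by positivity)
        _ = _ := by ring
    calc (∑ z ∈ ZZ F u v y μ, ((FX F u (update y v z) (X u)).card : ℝ)) * μ ^ (D + 1)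
        ≤ (∑ z ∈ ZZ F u v y μ, 6 ^ n u * (X u ^ a u * g ^ dg F u) *
          μ ^ finrank ℝ (Rl (der F u (iT (update y v z))))) * μ ^ (D + 1) :=
          mul_le_mul_of_nonneg_right (Finset.sum_le_sum h3) (by positivity)
      _ = 6 ^ n u * (X u ^ a u * g ^ dg F u) * ((∑ z ∈ ZZ F u v y μ,
          μ ^ finrank ℝ (Rl (der F u (iT (update y v z))))) * μ ^ (D + 1)) := by
          rw [← Finset.mul_sum]
          ring
      _ ≤ _ := by
          refine mul_le_mul_of_nonneg_left (hcell y μ hμ1 hy1 hy2 hy3) ?_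
          have := hX0 u
          positivity
  have hcard : ((Bad F u v X).card : ℝ) * μ ^ (D + 1) ≤ ((BY F u v X).card : ℝ) *
      (6 ^ n u * (X u ^ a u * g ^ dg F u) * (C * μ ^ (dg F u + n v))) := by
    have h3 : ((Bad F u v X).card : ℝ) ≤
        ∑ y ∈ BY F u v X, ∑ z ∈ ZZ F u v y μ, ((FX F u (update y v z) (X u)).card : ℝ) := by
      exact_mod_cast card_Bad h2 hc huv hX
    calc ((Bad F u v X).card : ℝ) * μ ^ (D + 1)
        ≤ (∑ y ∈ BY F u v X, ∑ z ∈ ZZ F u v y μ, ((FX F u (update y v z) (X u)).card : ℝ)) *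
          μ ^ (D + 1) := mul_le_mul_of_nonneg_right h3 (by positivity)
      _ = ∑ y ∈ BY F u v X, (∑ z ∈ ZZ F u v y μ, ((FX F u (update y v z) (X u)).card : ℝ)) *
          μ ^ (D + 1) := by rw [Finset.sum_mul]
      _ ≤ ∑ y ∈ BY F u v X, (6 ^ n u * (X u ^ a u * g ^ dg F u) * (C * μ ^ (dg F u + n v))) :=
          Finset.sum_le_sum hone
      _ = _ := by rw [Finset.sum_const, nsmul_eq_mul]
  -- the number of bases
  have hBY : ((BY F u v X).card : ℝ) ≤ 3 ^ (∑ t, n t) *
      ∏ t, (if t = u ∨ t = v then 1 else S t) := by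
    refine (card_BY u v hX).trans ?_
    rw [← Finset.prod_pow_eq_pow_sum, ← Finset.prod_mul_distrib]
    refine Finset.prod_le_prod (fun t _ => ?_) fun t _ => ?_
    · have := hX0 t
      split_ifs <;> positivity
    · split_ifs with ht
      · rw [mul_one]
        exact one_le_pow₀ (by norm_num)
      · rw [mul_pow]
        refine mul_le_mul_of_nonneg_left ?_ (by positivity)
        rw [hS, ← ha t, pow_add]
        have := hX0 t
        refine mul_le_mul_of_nonneg_left ?_ (by positivity)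
        exact pow_le_pow_left₀ (hX0 t).le (hXg t) _
  have hprod : ∏ t, S t = Nm a X * (g * μ) ^ D := by
    rw [hS, Finset.prod_mul_distrib, Finset.prod_pow_eq_pow_sum, sum_dg, ← hD]
    rfl
  have hSpos : ∀ t, 0 < S t := fun t => by
    have := hX0 t
    rw [hS]
    positivity
  have hR : 0 ≤ ∏ t, (if t = u ∨ t = v then 1 else S t) := by
    refine Finset.prod_nonneg fun t _ => ?_
    split_ifs
    · norm_num
    · exact (hSpos t).le
  have hfac : X u ^ a u * g ^ dg F u * μ ^ (dg F u + n v) ≤ S u * S v := by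
    have h3 : S u * S v = (X u ^ a u * g ^ dg F u * μ ^ (dg F u + n v)) * g ^ dg F v := by
      simp only [hS]
      rw [← hμ, ← ha v, pow_add, pow_add, mul_pow, mul_pow]
      ring
    rw [h3]
    have := hX0 u
    exact le_mul_of_one_le_right (by positivity) (one_le_pow₀ hg)
  have hfinal : ((Bad F u v X).card : ℝ) * μ ^ (D + 1) ≤
      3 ^ (∑ t, n t) * 6 ^ n u * C * (Nm a X * (g * μ) ^ D) := by
    refine hcard.trans ?_
    calc ((BY F u v X).card : ℝ) *
          (6 ^ n u * (X u ^ a u * g ^ dg F u) * (C * μ ^ (dg F u + n v)))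
        = ((BY F u v X).card : ℝ) * (6 ^ n u * C *
          (X u ^ a u * g ^ dg F u * μ ^ (dg F u + n v))) := by ring
      _ ≤ (3 ^ (∑ t, n t) * ∏ t, (if t = u ∨ t = v then 1 else S t)) *
          (6 ^ n u * C * (S u * S v)) := by
          refine mul_le_mul hBY ?_ ?_ (by positivity)
          · exact mul_le_mul_of_nonneg_left hfac (by positivity)
          · have := hX0 u
            positivity
      _ = 3 ^ (∑ t, n t) * 6 ^ n u * C *
          (S u * S v * ∏ t, (if t = u ∨ t = v then 1 else S t)) := by ring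
      _ = _ := by rw [prod_two huv, hprod]
  have hpos : 0 < μ ^ (D + 1) := by positivity
  refine le_of_mul_le_mul_right ?_ hpos
  refine hfinal.trans (le_of_eq ?_)
  rw [mul_pow, pow_succ]
  field_simp

end Deg

open Deg in
/-- MM/D: the bound for the bad families. -/
theorem degP (hA : CellP) (hB : CntP) (hC : CptP) : DegP := by
  intro V _ _ n k F a D h2 hc ha hD hRC
  classical
  have h3 : ∀ u v : V, ∃ C : ℝ, 0 ≤ C ∧ (u ≠ v → ∀ (X : V → ℝ) (g : ℝ), (∀ u, 1 ≤ X u) → 1 ≤ g →
      (∀ u, X u ≤ g * X v) → ((Bad F u v X).card : ℝ) ≤ C * Nm a X * (g ^ D / X v)) := by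
    intro u v
    by_cases huv : u = v
    · exact ⟨0, le_rfl, fun h => absurd huv h⟩
    · obtain ⟨C, h4, h5⟩ := bad_bound hA hB hC h2 hc ha hD hRC huv
      exact ⟨C, h4, fun _ => h5⟩
  choose C hC0 hCb using h3
  refine ⟨∑ v, ∑ u, C u v, Finset.sum_nonneg fun v _ => Finset.sum_nonneg fun u _ => hC0 u v, ?_⟩
  intro v X g hX hg hXg
  have hX0 : ∀ u, 0 < X u := fun u => by linarith [hX u]
  have hsub : TX F (GI F) v X \ UX F (GI F) X ⊆ (Finset.univ.erase v).biUnion fun u => Bad F u v X := by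
    intro x hx
    rw [Finset.mem_sdiff, mem_TX fun t => (hX0 t).le, mem_UX fun t => (hX0 t).le] at hx
    obtain ⟨⟨h4, h5, h6, h7⟩, h8⟩ := hx
    have h9 : ∃ u, ¬ GI F u x := by
      by_contra hcon
      push Not at hcon
      exact h8 ⟨h4, h5, hcon⟩
    obtain ⟨u, hu⟩ := h9
    rw [Finset.mem_biUnion]
    refine ⟨u, Finset.mem_erase.2 ⟨?_, Finset.mem_univ _⟩, ?_⟩
    · rintro rfl
      exact hu h6
    · unfold Bad
      rw [Finset.mem_filter, mem_TX fun t => (hX0 t).le]
      exact ⟨⟨h4, h5, h6, h7⟩, hu⟩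
  have hpos : 0 ≤ Nm a X * (g ^ D / X v) :=
    mul_nonneg (Nm_pos hX0).le (div_nonneg (by positivity) (hX0 v).le)
  calc ((TX F (GI F) v X \ UX F (GI F) X).card : ℝ)
      ≤ (((Finset.univ.erase v).biUnion fun u => Bad F u v X).card : ℝ) := by
        exact_mod_cast Finset.card_le_card hsub
    _ ≤ ∑ u ∈ Finset.univ.erase v, ((Bad F u v X).card : ℝ) := by
        exact_mod_cast Finset.card_biUnion_le
    _ ≤ ∑ u ∈ Finset.univ.erase v, C u v * (Nm a X * (g ^ D / X v)) := by
        refine Finset.sum_le_sum fun u hu => ?_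
        rw [← mul_assoc]
        exact hCb u v (Finset.ne_of_mem_erase hu) X g hX hg hXg
    _ = (∑ u ∈ Finset.univ.erase v, C u v) * (Nm a X * (g ^ D / X v)) := by
        rw [Finset.sum_mul]
    _ ≤ (∑ v, ∑ u, C u v) * (Nm a X * (g ^ D / X v)) := by
        refine mul_le_mul_of_nonneg_right ?_ hpos
        refine (Finset.sum_le_sum_of_subset_of_nonneg (Finset.erase_subset _ _)
          fun u _ _ => hC0 u v).trans ?_
        exact Finset.single_le_sum (f := fun v => ∑ u, C u v)
          (fun v _ => Finset.sum_nonneg fun u _ => hC0 u v) (Finset.mem_univ v)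
    _ = _ := by ring

end Pool.Agent.N478.MM
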